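import Mathlib

/-!
# MP_c93117_an: projections of norm `≤ 1 + ε₀` in `C(K)` — common definitions and block statements

`K` compact metric, `P : C(K, ℝ) →L[ℝ] C(K, ℝ)` a projection onto the subspace `p`.
Block [R] (Riesz): `StR`.  Block [N] (norming good points): `StN`.  Block [I] (from norming good
points to `C(L)`): `StI`.  Assembly: `main_of_blocks`.
-/

open MeasureTheory Set Topology

namespace C93117

universe u

section defs
variable {K : Type u} [MetricSpace K] [CompactSpace K]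

/-- The functional `f ↦ P f t`. -/
noncomputable def ev (P : C(K, ℝ) →L[ℝ] C(K, ℝ)) (t : K) : C(K, ℝ) →L[ℝ] ℝ :=
  (ContinuousMap.evalCLM ℝ t).comp P

@[simp] lemma ev_apply (P : C(K, ℝ) →L[ℝ] C(K, ℝ)) (t : K) (f : C(K, ℝ)) :
    ev P t f = P f t := rfl

/-- `D P s t σ = ‖δ_s P - σ δ_t P‖`. -/
noncomputable def D (P : C(K, ℝ) →L[ℝ] C(K, ℝ)) (s t : K) (σ : ℝ) : ℝ :=
  ‖ev P s - σ • ev P t‖

/-- The points `s` with `δ_s P` close to `± δ_t P`. -/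
def B (P : C(K, ℝ) →L[ℝ] C(K, ℝ)) (c : ℝ) (t : K) : Set K :=
  {s | D P s t 1 ≤ c ∨ D P s t (-1) ≤ c}

/-- `t` is a `c`-good point: `δ_t P` has norm `≥ 1 - c` and is `c`-concentrated on `B P c t`. -/
structure Good (P : C(K, ℝ) →L[ℝ] C(K, ℝ)) (c : ℝ) (t : K) : Prop where
  norm_ge : 1 - c ≤ ‖ev P t‖
  conc : ∀ f : C(K, ℝ), (∀ s ∈ B P c t, f s = 0) → |P f t| ≤ c * ‖f‖

/-- `P` is a projection onto the subspace `p`. -/
structure IsProj (p : Submodule ℝ C(K, ℝ)) (P : C(K, ℝ) →L[ℝ] C(K, ℝ)) : Prop where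
  mem : ∀ f, P f ∈ p
  eq_self : ∀ f ∈ p, P f = f

/-- Riesz representation of all functionals `δ_t P` by their positive and negative parts,
with the facts about the total variations `m t = mp t + mn t` that are used in block [N]. -/
structure Ker [MeasurableSpace K] (P : C(K, ℝ) →L[ℝ] C(K, ℝ)) where
  mp : K → Measure K
  mn : K → Measure K
  fin_p : ∀ t, IsFiniteMeasure (mp t)
  fin_n : ∀ t, IsFiniteMeasure (mn t)
  rep : ∀ (t : K) (f : C(K, ℝ)), P f t = ∫ s, f s ∂(mp t) - ∫ s, f s ∂(mn t)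
  /-- total mass = norm of the functional -/
  mass : ∀ t, (mp t + mn t).real univ = ‖ev P t‖
  /-- `∫ f dm_t = sup {P g t : |g| ≤ f}` (the nontrivial inequality) -/
  upper : ∀ (t : K) (f : C(K, ℝ)), 0 ≤ f → ∀ b : ℝ,
    (∀ g : C(K, ℝ), (∀ s, |g s| ≤ f s) → P g t ≤ b) → ∫ s, f s ∂(mp t + mn t) ≤ b
  /-- `t ↦ ∫ f dm_t` is Borel (in fact lower semicontinuous) for continuous `f ≥ 0`. -/
  meas : ∀ f : C(K, ℝ), 0 ≤ f → Measurable fun t => ∫ s, f s ∂(mp t + mn t)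
  /-- `m_t ≤ ∫ m_s dm_t(s)` (for `P P = P`). -/
  dom : ∀ (t : K) (f : C(K, ℝ)), 0 ≤ f →
    ∫ s, f s ∂(mp t + mn t) ≤ ∫ s, (∫ r, f r ∂(mp s + mn s)) ∂(mp t + mn t)

end defs

/-- Block [R]. -/
def StR : Prop := ∀ (K : Type) [MetricSpace K] [CompactSpace K] [MeasurableSpace K] [BorelSpace K]
  (P : C(K, ℝ) →L[ℝ] C(K, ℝ)), (∀ f, P (P f) = P f) → Nonempty (Ker P)

/-- Block [N] (helper46): norming good points. -/
def StN : Prop := ∀ c : ℝ, 0 < c → ∃ ε₀ : ℝ, 0 < ε₀ ∧ ∀ (K : Type) [MetricSpace K]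
  [CompactSpace K] (p : Submodule ℝ C(K, ℝ)) (P : C(K, ℝ) →L[ℝ] C(K, ℝ)), IsProj p P →
  ‖P‖ ≤ 1 + ε₀ → TopologicalSpace.SeparableSpace (StrongDual ℝ p) →
  ∀ x ∈ p, ‖x‖ = 1 → ∃ t, Good P c t ∧ (7 / 10 : ℝ) ≤ |x t|

/-- Block [I]: from norming good points to `C(L)`. -/
def StI : Prop := ∀ (K : Type) [MetricSpace K]
  [CompactSpace K] (p : Submodule ℝ C(K, ℝ)) (P : C(K, ℝ) →L[ℝ] C(K, ℝ)), IsProj p P →
  ‖P‖ ≤ 1 + 1 / 10000 → TopologicalSpace.SeparableSpace (StrongDual ℝ p) →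
  (∀ x ∈ p, ‖x‖ = 1 → ∃ t, Good P (1 / 10000) t ∧ (7 / 10 : ℝ) ≤ |x t|) →
  ∃ (L : Type) (_ : MetricSpace L) (_ : CompactSpace L), Nonempty (p ≃L[ℝ] C(L, ℝ))

/-- The final theorem. -/
def StMain : Prop := ∃ ε₀ : ℝ, 0 < ε₀ ∧ ∀ (K : Type) [MetricSpace K] [CompactSpace K]
  (p : Submodule ℝ C(K, ℝ)) (P : C(K, ℝ) →L[ℝ] C(K, ℝ)),
  (∀ f, P f ∈ p) → (∀ f ∈ p, P f = f) → ‖P‖ ≤ 1 + ε₀ →
  TopologicalSpace.SeparableSpace (StrongDual ℝ p) →
  ∃ (L : Type) (_ : MetricSpace L) (_ : CompactSpace L), Nonempty (p ≃L[ℝ] C(L, ℝ))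

theorem main_of_blocks (hN : StN) (hI : StI) : StMain := by
  obtain ⟨ε₀, hε₀, h⟩ := hN (1 / 10000) (by norm_num)
  refine ⟨min ε₀ (1 / 10000), lt_min hε₀ (by norm_num), ?_⟩
  intro K _ _ p P h1 h2 hP hsep
  have hpr : IsProj p P := ⟨h1, h2⟩
  refine hI K p P hpr (hP.trans ?_) hsep ?_
  · gcongr; exact min_le_right _ _
  · exact h K p P hpr (hP.trans (by gcongr; exact min_le_left _ _)) hsep

end C93117
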