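import Pool.Agent.Work.MP_c93117_an.Bd.B05

/-! Final assembly with the explicit constant `1 + 10⁻²⁸` and a countable `L`. -/

open Set Topology

namespace C93117

open I3 Pool.Agent.Work.MP_c93117_an.I

/-- Norming good points with explicit constant. -/
theorem norming_explicit (hN : SmP.ThmN) (hS : SmP.SepNC) (K : Type) [MetricSpace K]
    [CompactSpace K] (p : Submodule ℝ C(K, ℝ)) (P : C(K, ℝ) →L[ℝ] C(K, ℝ)) (hp : IsProj p P)
    (hP : ‖P‖ ≤ 1 + 1 / 10 ^ 28) (hsep : TopologicalSpace.SeparableSpace (StrongDual ℝ p))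
    (x : C(K, ℝ)) (hx : P x = x) (hx0 : x ≠ 0) :
    ∃ t, Conc P (1 / 10000) t ∧ 1 / 2 * ‖x‖ ≤ |x t| := by
  have hPP : ∀ f, P (P f) = P f := fun f => hp.eq_self _ (hp.mem f)
  have hNC : SmP.NoCantor P := hS K P p (fun y hy => hy ▸ hp.mem y) hsep
  have hn : 0 < ‖x‖ := norm_pos_iff.mpr hx0
  obtain ⟨t, hg, -, ht⟩ := hN K P (1 / 10000) (by norm_num) (by norm_num) hPP
    (hP.trans (by norm_num)) hNC (‖x‖⁻¹ • x) (by rw [map_smul, hx]) (by
      rw [norm_smul, norm_inv, norm_norm, inv_mul_cancel₀ hn.ne'])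
  refine ⟨t, ?_, ?_⟩
  · intro f hf
    refine hg f fun s hs => hf s ?_
    rcases hs with h | h
    · left
      have : C93117.D P s t 1 = ‖SmP.ev P s - SmP.ev P t‖ := by
        unfold C93117.D
        rw [one_smul]
        rfl
      rw [this]
      exact h
    · right
      have : C93117.D P s t (-1) = ‖SmP.ev P s + SmP.ev P t‖ := by
        unfold C93117.D
        have h1 : C93117.ev P s - (-1 : ℝ) • C93117.ev P t = SmP.ev P s + SmP.ev P t := by
          ext f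
          simp [SmP.ev_apply]
        rw [h1]
      rw [this]
      exact h
  · rw [ContinuousMap.smul_apply, smul_eq_mul, abs_mul, abs_inv, abs_norm] at ht
    have : ‖x‖ * (‖x‖⁻¹ * |x t|) = |x t| := by field_simp
    nlinarith

/-- The main theorem from Theorem N. -/
theorem main_final (hN : SmP.ThmN) (hS : SmP.SepNC) (K : Type) [MetricSpace K]
    [CompactSpace K] (p : Submodule ℝ C(K, ℝ)) (P : C(K, ℝ) →L[ℝ] C(K, ℝ))
    (h1 : ∀ f, P f ∈ p) (h2 : ∀ f ∈ p, P f = f) (hP : ‖P‖ ≤ 1 + 1 / 10 ^ 28)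
    (hsep : Countable K ∨ TopologicalSpace.SeparableSpace (StrongDual ℝ p)) :
    ∃ (L : Type) (_ : MetricSpace L) (_ : CompactSpace L),
      Countable L ∧ Nonempty (p ≃L[ℝ] C(L, ℝ)) := by
  have hp : IsProj p P := ⟨h1, h2⟩
  have hsep' : TopologicalSpace.SeparableSpace (StrongDual ℝ p) := by
    rcases hsep with h | h
    · exact sepDual_of_countable p P hp
    · exact h
  have hPP : ∀ f, P (P f) = P f := fun f => hp.eq_self _ (hp.mem f)
  have hP' : ‖P‖ ≤ 1 + 1 / 10000 := hP.trans (by norm_num)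
  obtain ⟨Q, hQ⟩ := pr_StIa K P hPP hP' (norming_explicit hN hS K p P hp hP hsep')
  obtain ⟨e'⟩ := prf_Id K p P hp hP' Q hQ (stIc K P hPP hP' Q hQ)
  have c1 := compactQ hQ
  have c2 := compactM hQ
  have c3 := t2M hQ
  have c4 := countableM hQ p hp hP' hsep'
  obtain ⟨L, i1, i2, hL, ⟨e⟩⟩ := odd_iso (tau hQ) (tau_cont hQ) (tau_tau hQ) (tau_fix hQ)
  obtain ⟨e''⟩ := eqv_clm hQ
  exact ⟨L, i1, i2, hL, ⟨(e'.trans e'').trans e⟩⟩

end C93117
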