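import Pool.Agent.Work.MP_c93117_an.Main.Defs

/-! Sub-blocks of [I]: `StI2` (dichotomy, helper87), `StI3` (quotient + iso, helper11) uses `StI4`
(odd functions, helper64). -/

open Set Topology

namespace C93117

universe u

section
variable {K : Type u} [MetricSpace K] [CompactSpace K]

/-- closure of the union of the sets `B P c t`, `t` good. -/
def Qset (P : C(K, ℝ) →L[ℝ] C(K, ℝ)) (c : ℝ) : Set K :=
  closure {s | ∃ t, Good P c t ∧ s ∈ B P c t}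

end

/-- closed relations (lower semicontinuity) -/
def StLsc : Prop := ∀ (K : Type) [MetricSpace K] [CompactSpace K]
  (P : C(K, ℝ) →L[ℝ] C(K, ℝ)) (σ a : ℝ), IsClosed {z : K × K | D P z.1 z.2 σ ≤ a}

/-- Block [I2]. With `c = 1/10000`, `Q = Qset P c`: (A) dichotomy of norms, (B) separation,
(C) `P f t ≈ f t` for continuous `f` that is compatible with the class of `t`. -/
def StI2 : Prop := ∀ (K : Type) [MetricSpace K] [CompactSpace K]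
  (P : C(K, ℝ) →L[ℝ] C(K, ℝ)), (∀ f, P (P f) = P f) → ‖P‖ ≤ 1 + 1 / 10000 →
  (∀ t ∈ Qset P (1 / 10000), ‖ev P t‖ ≤ 3 / 100 ∨ 97 / 100 ≤ ‖ev P t‖) ∧
  (∀ s ∈ Qset P (1 / 10000), ∀ t ∈ Qset P (1 / 10000), ∀ σ : ℝ, (σ = 1 ∨ σ = -1) →
    D P s t σ ≤ 1 / 2 → D P s t σ ≤ 6 / 100) ∧
  (∀ t ∈ Qset P (1 / 10000), 3 / 100 < ‖ev P t‖ → ∀ f : C(K, ℝ),
    (∀ s ∈ Qset P (1 / 10000), ∀ σ : ℝ, (σ = 1 ∨ σ = -1) → D P s t σ ≤ 1 / 2 →
      f s = σ * f t) → |P f t - f t| ≤ 4 / 100 * ‖f‖)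

/-- Block [I4]. -/
def StI4 : Prop := ∀ (M : Type) [TopologicalSpace M] [CompactSpace M] [T2Space M] [Countable M]
  (τ : M → M), Continuous τ → (∀ x, τ (τ x) = x) →
  (∀ x y, τ x = x → τ y = y → x = y) → ∀ Y : Submodule ℝ C(M, ℝ),
  (∀ g : C(M, ℝ), g ∈ Y ↔ ∀ x, g (τ x) = - g x) →
  ∃ (L : Type) (_ : MetricSpace L) (_ : CompactSpace L), Nonempty (Y ≃L[ℝ] C(L, ℝ))

end C93117
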